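import Mathlib

set_option autoImplicit false

namespace Pool.Agent.H.MP_31a5ad_lc

open Set Ordinal

/-- trees of height omega one without uncountable chains -/
def Aron (T : Type) [PartialOrder T] [WellFoundedLT T] : Prop :=
  (∀ t : T, IsChain (· ≤ ·) (Iio t)) ∧ (∀ α < ω₁, ∃ t : T, α ≤ IsWellFounded.rank (· < ·) t) ∧
    ∀ C : Set T, IsChain (· ≤ ·) C → C.Countable

/-- the forcing adds no new subsets of omega: below every condition some condition decides all
statements `n ∈ x`, where `x` is the name with `n` attached to the conditions in `U n` -/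
def NNR (P : Type) [Preorder P] : Prop :=
  ∀ (U : ℕ → Set P) (p : P), ∃ q ≤ p, ∀ n,
    (∀ r ≤ q, ∃ s ≤ r, ∃ u ∈ U n, s ≤ u) ∨ ∀ r ≤ q, ∀ u ∈ U n, ¬ r ≤ u

/-- some forcing adding no reals has names for countably many antichains covering `T` -/
def Spz (T : Type) [PartialOrder T] : Prop :=
  ∃ (P : Type) (_ : Preorder P), Nonempty P ∧ NNR P ∧ ∃ U : T → ℕ → Set P,
    (∀ t p, ∃ q ≤ p, ∃ n, ∃ u ∈ U t n, q ≤ u) ∧
      ∀ s t, s < t → ∀ n, ∀ p ∈ U s n, ∀ q ∈ U t n, ¬ ∃ r, r ≤ p ∧ r ≤ q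

end Pool.Agent.H.MP_31a5ad_lc
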