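import Mathlib
import Pool.Agent.H.MP_84ba36_lc.A
import Pool.Agent.H.MP_31a5ad_lc.D

set_option autoImplicit false

namespace Pool.Agent.H.MP_31a5ad_lc

open Set Filter Function Cardinal Ordinal Pool.Agent.H.MP_77d395_lc

theorem clo {P K : Type} [Preorder P] [Countable K] (h : NNR P) (V : I → K → I → Set P)
    (v1 : ∀ a k b, IsLowerSet (V a k b)) (v2 : ∀ a k p, ∃ r ≤ p, ∃ b, r ∈ V a k b) (p0 : P) :
    ∃ p, ∃ N : Set I, N.Countable ∧ N.Nonempty ∧ ∀ a ∈ N, ∀ k, ∃ b ∈ N, ∀ r ≤ p, ∃ s ≤ r,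
      s ∈ V a k b := by
  obtain ⟨a0⟩ : Nonempty I := inferInstance
  let W : I → K → I → Set P := fun a k b => {p | p ∈ V a k b ∧ ∀ c < b, ∀ r ≤ p, r ∉ V a k c}
  let X : List K → I → Set P := List.rec (fun a => {_p | a = a0})
    fun k _ X b => {p | ∃ a, p ∈ X a ∧ p ∈ W a k b}
  have hX : ∀ l, (∀ a, IsLowerSet (X l a)) ∧ (∀ p, ∃ r ≤ p, ∃ a, r ∈ X l a) ∧
      ∀ p a b, p ∈ X l a → p ∈ X l b → a = b := fun l => by
    induction l with
    | nil => exact ⟨fun a _ _ _ => id, fun p => ⟨p, le_rfl, a0, rfl⟩, fun p a b h g => h.trans g.symm⟩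
    | cons k l ih =>
      refine ⟨fun b p q h ⟨a, h1, h2, h3⟩ => ⟨a, ih.1 a h h1, v1 _ _ _ h h2, fun c e r g =>
        h3 c e r (g.trans h)⟩, fun p => ?_, fun p a b ⟨c, h1, h2⟩ ⟨d, h3, h4⟩ => ?_⟩
      · obtain ⟨r, r1, a, r2⟩ := ih.2.1 p
        obtain ⟨b, ⟨s, s1, s2⟩, hb⟩ := wellFounded_lt.has_min {b | ∃ s ≤ r, s ∈ V a k b}
          (let ⟨s, s1, b, s2⟩ := v2 a k r; ⟨b, s, s1, s2⟩)
        exact ⟨s, s1.trans r1, b, a, ih.1 a s1 r2, s2, fun c e t g d => hb c ⟨t, g.trans s1, d⟩ e⟩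
      · obtain rfl := ih.2.2 p c d h1 h3
        exact le_antisymm (not_lt.1 fun e => h2.2 b e p le_rfl h4.1)
          (not_lt.1 fun e => h4.2 a e p le_rfl h2.1)
  obtain ⟨ρ, hρ⟩ := MP_84ba36_lc.rr
  obtain ⟨e, he⟩ := exists_surjective_nat (List K × ℕ)
  obtain ⟨p, -, hp⟩ := h (fun n => {p | ∃ a, p ∈ X (e n).1 a ∧ ρ a (e n).2 = true}) p0
  have u : ∀ l, ∀ s ≤ p, ∀ t ≤ p, ∀ a b, s ∈ X l a → t ∈ X l b → ∀ j, ρ a j = true → ρ b j = true :=
    fun l s s1 t t1 a b s2 t2 j c => by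
      obtain ⟨n, hn⟩ := he (l, j)
      have := hp n
      rw [hn] at this
      obtain ⟨r, r1, u, ⟨d, u1, u2⟩, u3⟩ := this.resolve_right (fun g => g s s1 s ⟨a, s2, c⟩ le_rfl)
        t t1
      exact (hX l).2.2 r d b ((hX l).1 d u3 u1) ((hX l).1 b r1 t2) ▸ u2
  choose q q1 x q2 using fun l => (hX l).2.1 p
  have w : ∀ l, ∀ s ≤ p, ∀ a, s ∈ X l a → a = x l := fun l s s1 a s2 => hρ (funext fun j =>
    Bool.eq_iff_iff.2 ⟨u l s s1 _ (q1 l) _ _ s2 (q2 l) j, u l _ (q1 l) s s1 _ _ (q2 l) s2 j⟩)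
  refine ⟨p, range x, countable_range x, range_nonempty x, ?_⟩
  rintro _ ⟨l, rfl⟩ k
  refine ⟨_, ⟨k :: l, rfl⟩, fun r r1 => ?_⟩
  obtain ⟨s, s1, b, s2⟩ := (hX (k :: l)).2.1 r
  obtain rfl := w (k :: l) s (s1.trans r1) b s2
  obtain ⟨a, s3, s4⟩ := s2
  exact ⟨s, s1, w l s (s1.trans r1) a s3 ▸ s4.1⟩

open Classical in
noncomputable def sg {S : Type} (R : S → S → Prop) (d : ℕ → S) (s : S) (x : ℕ → ℕ) : ℕ → S
  | 0 => s
  | k + 1 => if R (sg R d s x k) (d (x k)) then d (x k) else sg R d s x k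

theorem gn {S ι : Type} [Countable ι] {X : Set (ℕ → ℕ)} (hX : ¬ IsMeagre X) (R : S → S → Prop)
    {d : ℕ → S} (hd : Surjective d) (s : S) (D : ι → S → Prop)
    (hD : ∀ i x k, ∃ t, R (sg R d s x k) t ∧ D i t) : ∃ x ∈ X, ∀ i, ∃ k, D i (sg R d s x k) := by
  have c : ∀ k x y, (∀ i < k, x i = y i) → sg R d s x k = sg R d s y k := fun k x y h => by
    induction k with
    | zero => rfl
    | succ k ih => rw [sg, sg, ih fun i g => h i (by omega), h k k.lt_succ_self]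
  by_contra! e
  refine hX (mem_of_superset (countable_iInter_mem.2 fun i => residual_of_dense_open
    (s := {x | ∃ k, D i (sg R d s x k)}) ?_ ?_) fun x h g => ?_)
  · refine isOpen_iff_mem_nhds.2 fun x ⟨k, h⟩ => mem_of_superset
      ((PiNat.isOpen_cylinder _ x k).mem_nhds (PiNat.self_mem_cylinder x k)) fun y g => ⟨k, ?_⟩
    rwa [c k y x g]
  · refine (PiNat.isTopologicalBasis_cylinders _).dense_iff.2 ?_
    rintro _ ⟨y, k, rfl⟩ -
    obtain ⟨t, t1, t2⟩ := hD i y k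
    obtain ⟨n, rfl⟩ := hd t
    have : ∀ i < k, update y k n i = y i := fun i h => update_of_ne h.ne _ _
    exact ⟨update y k n, this, k + 1, by rwa [sg, c k _ y this, update_self, if_pos t1]⟩
  · obtain ⟨i, h'⟩ := e x g
    obtain ⟨k, hk⟩ := mem_iInter.1 h i
    exact h' k hk

theorem bk {U K : Type} [Nonempty U] [Nonempty K] (hK : #K ≤ ℵ₁) (op : K → (ℕ → U) → U) :
    ∃ (y : I → U) (ξ : I → ℕ → I), (∀ δ, (Iio δ).Nonempty → Iio δ = range (ξ δ)) ∧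
      ∀ δ k, (Iio δ).Nonempty → op k (y ∘ ξ δ) ∈ range y := by
  classical
  obtain ⟨g⟩ := (le_def (I × I × K) I).1 (by
    simpa [mkI] using (mul_le_mul' le_rfl (mul_le_mul' le_rfl hK)).trans (by simp : ℵ₁ * _ ≤ ℵ₁))
  have : ∀ δ : I, ∃ ξ : ℕ → I, (Iio δ).Nonempty → Iio δ = range ξ := fun δ => by
    by_cases h : (Iio δ).Nonempty
    · exact (((cI δ).mono Iio_subset_Iic_self).exists_eq_range h).imp fun _ h _ => h
    · exact ⟨fun _ => δ, fun c => (h c).elim⟩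
  choose ξ hξ using this
  let y : I → U := wellFounded_lt.fix fun a ih => op (invFun g a).2.2 fun n =>
    if h : ξ (invFun g a).2.1 n < a then ih _ h else Classical.arbitrary U
  refine ⟨y, ξ, hξ, fun δ k h => ?_⟩
  obtain ⟨c, hc⟩ := unc ((cI δ).preimage (f := fun c => g (c, δ, k)) fun _ _ h =>
    congrArg Prod.fst (g.injective h))
  refine ⟨g (c, δ, k), (wellFounded_lt.fix_eq _ _).trans ?_⟩
  show op _ (fun n => if ξ (invFun g (g (c, δ, k))).2.1 n < g (c, δ, k) then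
    y (ξ (invFun g (g (c, δ, k))).2.1 n) else Classical.arbitrary U) = _
  rw [leftInverse_invFun g.injective]
  exact congrArg _ (funext fun n => if_pos (lt_trans ((hξ δ h).ge ⟨n, rfl⟩) (not_le.1 hc)))

def Om (G : Set (I × ℕ)) (n : ℕ) : Prop := ∀ i, (i, n) ∉ G

def Good (G : Set (I × ℕ)) : Prop := (∀ p ∈ G, ∀ j ≤ p.1, ∃ m, (j, m) ∈ G) ∧
  (∀ p ∈ G, ∀ q ∈ G, p.1 = q.1 ↔ p.2 = q.2) ∧ {n | Om G n}.Infinite

theorem cmp {G H K : Set (I × ℕ)} (g : Good G) (h : Good H) (k : Good K) (h1 : G ⊆ K) (h2 : H ⊆ K) :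
    G ⊆ H ∨ H ⊆ G := by
  by_contra! c
  obtain ⟨p, p1, p2⟩ := not_subset.1 c.1
  obtain ⟨q, q1, q2⟩ := not_subset.1 c.2
  rcases le_total p.1 q.1 with e | e
  · obtain ⟨m, hm⟩ := h.1 q q1 _ e
    obtain rfl : m = p.2 := (k.2.1 _ (h2 hm) p (h1 p1)).1 rfl
    exact p2 hm
  · obtain ⟨m, hm⟩ := g.1 p p1 _ e
    obtain rfl : m = q.2 := (k.2.1 _ (h1 hm) q (h2 q1)).1 rfl
    exact q2 hm

theorem mn : ∃ m : Set (I × ℕ) → I, ∀ G, Good G → ∀ i, i < m G ↔ ∃ n, (i, n) ∈ G := by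
  have : ∀ G, ∃ m : I, Good G → ∀ i, i < m ↔ ∃ n, (i, n) ∈ G := fun G => by
    by_cases g : Good G
    · obtain ⟨m, m1, m2⟩ := wellFounded_lt.has_min (Prod.fst '' G)ᶜ (unc
        ((countable_of_injective_of_countable_image (f := Prod.snd) (fun p a q b c =>
          Prod.ext ((g.2.1 p a q b).2 c) c) (to_countable _)).image _))
      exact ⟨m, fun _ i => ⟨fun h => by simpa using fun c => m2 i c h, fun ⟨n, h⟩ =>
        not_le.1 fun c => let ⟨k, e⟩ := g.1 _ h m c; m1 ⟨_, e, rfl⟩⟩⟩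
    · exact ⟨Classical.arbitrary I, fun c => (g c).elim⟩
  exact Classical.skolem.1 this

theorem sc (G : {G // Good G}) (F : Finset ℕ) : ∃ H : {G // Good G}, G < H ∧
    ∀ n ∈ F, Om G.1 n → Om H.1 n := by
  obtain ⟨m, hm⟩ := mn
  obtain ⟨c, c1, c2⟩ := G.2.2.2.exists_notMem_finset F
  have o : ∀ n, n ≠ c → Om G.1 n → Om (insert (m G, c) G.1) n := fun n h g i e =>
    e.elim (fun e => h (congrArg Prod.snd e)) (g i)
  have nm : ∀ p ∈ G.1, p.1 ≠ m G ∧ p.2 ≠ c := fun p h =>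
    ⟨((hm _ G.2 _).2 ⟨_, h⟩).ne, fun e => c1 p.1 (e ▸ h)⟩
  refine ⟨⟨insert (m G, c) G.1, ?_, ?_, (G.2.2.2.sdiff (finite_singleton c)).mono fun n h =>
    o n h.2 h.1⟩, ssubset_insert (c1 _), fun n h => o n fun e => c2 (e ▸ h)⟩
  · rintro p (rfl | h) j e
    · exact e.eq_or_lt.elim (fun e => ⟨c, .inl (e ▸ rfl)⟩) fun e =>
        ((hm _ G.2 j).1 e).imp fun _ => .inr
    · exact (G.2.1 p h j e).imp fun _ => .inr
  · rintro p (rfl | h) q (rfl | g)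
    exacts [by simp, iff_of_false (nm q g).1.symm (nm q g).2.symm, iff_of_false (nm p h).1 (nm p h).2,
      G.2.2.1 p h q g]

def RR (e : ℕ → {G // Good G}) (s t : ℕ × Finset ℕ) : Prop :=
  e s.1 ≤ e t.1 ∧ s.2 ⊆ t.2 ∧ ∀ n ∈ t.2, Om (e t.1).1 n

theorem sm (e : ℕ → {G // Good G}) (d : ℕ → ℕ × Finset ℕ) (x : ℕ → ℕ) {k l : ℕ} (h : k ≤ l) :
    RR e (sg (RR e) d (0, ∅) x k) (sg (RR e) d (0, ∅) x l) := by
  have : ∀ k, ∀ n ∈ (sg (RR e) d (0, ∅) x k).2, Om (e (sg (RR e) d (0, ∅) x k).1).1 n := fun k => by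
    induction k with
    | zero => simp [sg]
    | succ k ih =>
      rw [sg]
      split_ifs with c
      exacts [c.2.2, ih]
  induction l, h using Nat.le_induction with
  | base => exact ⟨le_rfl, subset_rfl, this k⟩
  | succ l _ ih =>
    rw [sg]
    split_ifs with c
    exacts [⟨ih.1.trans c.1, ih.2.1.trans c.2.1, c.2.2⟩, ih]

theorem main {X : Set (ℕ → ℕ)} (hX : ¬ IsMeagre X) (h : #X ≤ ℵ₁) :
    ∃ (T : Type) (_ : PartialOrder T) (_ : WellFoundedLT T), Aron T ∧ #T = ℵ₁ ∧ ¬ Spz T := by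
  classical
  have : Nonempty {G // Good G} := ⟨⟨∅, by simp, by simp, by simp [Om, infinite_univ]⟩⟩
  obtain ⟨d, hd⟩ := exists_surjective_nat (ℕ × Finset ℕ)
  choose sc s1 s2 using sc
  let L : (ℕ → ℕ) → (ℕ → {G // Good G}) → Set (I × ℕ) := fun x e =>
    ⋃ k, (e (sg (RR e) d (0, ∅) x k).1).1
  obtain ⟨y, ξ, y1, y2⟩ := bk (K := X ⊕ ℕ × Finset ℕ) (by
    simpa using add_le_of_le (aleph0_le_aleph 1) h (aleph0_le_aleph 1)) (Sum.elim (fun x e => if h : Good (L x e) then ⟨_, h⟩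
      else e 0) fun p e => sc (e p.1) p.2)
  obtain ⟨m, hm⟩ := mn
  have m1 : StrictMono fun t : range y => m t.1.1 := fun s t h => by
    obtain ⟨p, p1, p2⟩ := exists_of_ssubset (show s.1.1 ⊂ t.1.1 from h)
    refine lt_of_le_of_lt (not_lt.1 fun c => ?_) ((hm _ t.1.2 p.1).2 ⟨p.2, p1⟩)
    obtain ⟨n, c⟩ := (hm _ s.1.2 _).1 c
    obtain rfl : n = p.2 := (t.1.2.2.1 _ (h.le c) p p1).1 rfl
    exact p2 c
  have ns : ¬ Spz (range y) := fun ⟨P, _, ⟨p0⟩, hP, U, u1, u2⟩ => by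
    let Y : I → range y := rangeFactorization y
    let U' : range y → ℕ → Set P := fun t n => {p | ∃ u ∈ U t n, p ≤ u}
    choose η hη using fun a => countable_iff_exists_subset_range.1 (cI a)
    have : ∀ a F, ∃ b, y b = sc (y a) F := fun a F => by
      obtain ⟨δ, hδ⟩ := unc (cI a)
      replace hδ : a < δ := not_le.1 hδ
      obtain ⟨j, rfl⟩ := (y1 δ ⟨a, hδ⟩).le hδ
      exact y2 δ (.inr (j, F)) ⟨_, hδ⟩
    choose θ hθ using this
    obtain ⟨p, N, n1, n2, n3⟩ := clo (K := (Finset ℕ × ℕ) ⊕ ℕ ⊕ Finset ℕ) hP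
      (fun a k b => Sum.elim (fun k => {s | y a ≤ y b ∧ (∀ n ∈ k.1, Om (y a).1 n → Om (y b).1 n) ∧
        (s ∈ U' (Y b) k.2 ∨ ∀ t, y a ≤ t.1 → (∀ n ∈ k.1, Om t.1.1 n) → ∀ r ≤ s, r ∉ U' t k.2)})
        (fun k => {_s | b = Sum.elim (η a) (θ a) k}) k) (by
        rintro a (k | k) b s t h
        · exact fun ⟨a1, a2, a3⟩ => ⟨a1, a2, a3.imp (fun ⟨u, h1, h2⟩ => ⟨u, h1, h.trans h2⟩)
            fun c t' h1 h2 r h3 => c t' h1 h2 r (h3.trans h)⟩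
        · exact id) (by
        rintro a (k | k) p
        · by_cases c : ∀ t, y a ≤ t.1 → (∀ n ∈ k.1, Om t.1.1 n) → ∀ r ≤ p, r ∉ U' t k.2
          · exact ⟨p, le_rfl, a, le_rfl, fun _ _ => id, .inr c⟩
          push Not at c
          obtain ⟨⟨_, b, rfl⟩, c1, c2, r, c3, c4⟩ := c
          exact ⟨r, c3, b, c1, fun n h _ => c2 n h, .inl c4⟩
        · exact ⟨p, le_rfl, _, rfl⟩) p0
    have n4 : ∀ a ∈ N, ∀ k, Sum.elim (η a) (θ a) k ∈ N := fun a h k =>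
      let ⟨_, b1, b2⟩ := n3 a h (.inr k); let ⟨_, _, c⟩ := b2 p le_rfl; (c :) ▸ b1
    obtain ⟨δ, d1, d2⟩ := wellFounded_lt.has_min Nᶜ (unc n1)
    have : Iio δ = N := Subset.antisymm (fun a h => not_not.1 fun c => d2 a c h) fun a h =>
      show a < δ from not_le.1 fun c => let ⟨j, e⟩ := hη a (show δ ∈ Iic a from c); d1 (e ▸ n4 a h (.inl j))
    have hN := this ▸ y1 δ (this ▸ n2)
    set e := y ∘ ξ δ with he
    obtain ⟨x, x1, x2⟩ := gn (ι := ℕ ⊕ ℕ ⊕ ℕ) hX (RR e) hd (0, ∅) (fun i s =>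
      Sum.elim (fun n => ∀ r ≤ p, ∃ q ≤ r, q ∈ U' (Y (ξ δ s.1)) n ∨ ∀ t, e s.1 ≤ t.1 →
        (∀ n ∈ s.2, Om t.1.1 n) → q ∉ U' t n) (Sum.elim (fun n => ∃ c ∈ s.2, n < c)
          fun i => ¬ (e s.1 ≤ e i ∧ ∀ n ∈ s.2, Om (e i).1 n)) i) (fun i x k => by
      have o := (sm e d x (le_refl k)).2.2
      generalize sg (RR e) d (0, ∅) x k = s at o
      rcases i with n | n | i
      · obtain ⟨b, b1, b2⟩ := n3 _ (hN.ge ⟨s.1, rfl⟩) (.inl (s.2, n))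
        obtain ⟨j, rfl⟩ := hN.le b1
        obtain ⟨_, -, b3, b4, -⟩ := b2 p le_rfl
        exact ⟨(j, s.2), ⟨b3, subset_rfl, fun n h => b4 n h (o n h)⟩, fun r h =>
          let ⟨q, q1, _, _, q2⟩ := b2 r h
          ⟨q, q1, q2.imp_right fun c t h1 h2 => c t (b3.trans h1) h2 q le_rfl⟩⟩
      · obtain ⟨c, c1, c2⟩ := (e s.1).2.2.2.exists_gt n
        exact ⟨(s.1, insert c s.2), ⟨le_rfl, Finset.subset_insert _ _, fun n h =>
          (Finset.mem_insert.1 h).elim (· ▸ c1) (o n)⟩, c, Finset.mem_insert_self _ _, c2⟩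
      by_cases c : e s.1 ≤ e i ∧ ∀ n ∈ s.2, Om (e i).1 n
      · obtain ⟨j, hj⟩ := hN.le (n4 _ (hN.ge ⟨i, rfl⟩) (.inr s.2))
        have : e j = sc (e i) s.2 := (congrArg y hj).trans (hθ _ _)
        exact ⟨(j, s.2), ⟨this ▸ c.1.trans (s1 _ _).le, subset_rfl, fun n h =>
          this ▸ s2 _ _ n h (c.2 n h)⟩, fun c => (this ▸ s1 _ _).not_ge c.1⟩
      · exact ⟨s, ⟨le_rfl, subset_rfl, o⟩, c⟩)
    have o : ∀ k, ∀ n ∈ (sg (RR e) d (0, ∅) x k).2, Om (L x e) n := fun k n h i c => by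
      obtain ⟨l, c⟩ := mem_iUnion.1 c
      exact (sm e d x (le_refl (max k l))).2.2 n ((sm e d x (le_max_left k l)).2.1 h) i
        ((sm e d x (le_max_right k l)).1 c)
    have g : Good (L x e) := ⟨fun p h j c => let ⟨k, h⟩ := mem_iUnion.1 h
      ((e _).2.1 p h j c).imp fun _ h => mem_iUnion.2 ⟨k, h⟩, fun p h q g =>
      let ⟨k, h⟩ := mem_iUnion.1 h; let ⟨l, g⟩ := mem_iUnion.1 g
      (e _).2.2.1 p ((sm e d x (le_max_left k l)).1 h) q ((sm e d x (le_max_right k l)).1 g),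
      infinite_of_forall_exists_gt fun n => let ⟨k, c, c1, c2⟩ := x2 (.inr (.inl n))
        ⟨c, o k c c1, c2⟩⟩
    let t : range y := ⟨⟨_, g⟩, (y2 δ (.inl ⟨x, x1⟩) (this ▸ n2)).imp fun _ h =>
      h.trans (dif_pos g)⟩
    have le : ∀ k, e (sg (RR e) d (0, ∅) x k).1 ≤ t.1 := fun k =>
      subset_iUnion (fun k => (e (sg (RR e) d (0, ∅) x k).1).1) k
    obtain ⟨r, r1, n, u, r2, r3⟩ := u1 t p
    obtain ⟨k, hk⟩ := x2 (.inl n)
    obtain ⟨q, q1, ⟨v, q2, q3⟩ | q2⟩ := hk r r1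
    · refine u2 _ t (lt_of_le_of_ne (le k) fun c => ?_) n v q2 u r2 ⟨q, q3, q1.trans r3⟩
      obtain ⟨l, hl⟩ := x2 (.inr (.inr (sg (RR e) d (0, ∅) x k).1))
      have c : e _ = t.1 := congrArg Subtype.val c
      exact hl (c ▸ ⟨le l, o l⟩)
    · exact q2 t (le k) (o k) ⟨u, r2, q1.trans r3⟩
  have sp : ∀ f : range y → ℕ, ¬ ∀ s t, s < t → f s ≠ f t := fun f c => ns ⟨Unit, _, ⟨()⟩,
    fun U p => ⟨p, le_rfl, fun n => (U n).eq_empty_or_nonempty.symm.imp (fun ⟨u, h⟩ r _ =>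
      ⟨r, le_rfl, u, h, le_rfl⟩) (by simp +contextual)⟩, fun t n => {_p | f t = n},
    fun t p => ⟨p, le_rfl, _, p, rfl, le_rfl⟩, fun s t h n _ a _ b _ => c s t h (a.trans b.symm)⟩
  have := m1.wellFoundedLT
  refine ⟨range y, _, this, ⟨fun t a ha b hb _ => cmp a.1.2 b.1.2 t.1.2 ha.le hb.le, fun α h => ?_,
    fun C c => ?_⟩, le_antisymm (mkI ▸ mk_range_le) (not_lt.1 fun c => ?_), ns⟩
  · by_contra! c
    obtain ⟨f, hf⟩ := countable_iff_exists_injOn.1 ((le_aleph0_iff_set_countable (s := Iio α)).1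
      (by rw [Cardinal.mk_Iio_ordinal, lift_le_aleph0]; simpa using lt_omega_iff_card_lt.1 h))
    exact sp (fun t => f (IsWellFounded.rank (· < ·) t)) fun s t h e =>
      (IsWellFounded.rank_lt_of_rel h).ne (hf (c s) (c t) e)
  · by_contra n
    have : ∀ i, ∃ t ∈ C, ∃ n, (i, n) ∈ t.1.1 := fun i => by
      obtain ⟨t, t1, t2⟩ := not_subset.1 fun e : C ⊆ (fun t : range y => m t.1.1) ⁻¹' Iic i =>
        n (countable_of_injective_of_countable_image (fun a h b g e => by_contra fun ne =>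
          (c h g ne).elim (fun l => (m1 (l.lt_of_ne ne)).ne e) fun l => (m1 (l.lt_of_ne' ne)).ne' e)
          ((cI i).mono (image_subset_iff.2 e)))
      exact ⟨t, t1, (hm _ t.1.2 i).1 (not_le.1 t2)⟩
    choose t t1 f hf using this
    obtain ⟨b, hb⟩ := unc (countable_univ_iff.2 (Injective.countable (f := f) fun i j e =>
      (c.total (t1 i) (t1 j)).elim (fun g => ((t j).1.2.2.1 _ (g (hf i)) _ (hf j)).2 e)
        fun g => ((t i).1.2.2.1 _ (hf i) _ (g (hf j))).2 e))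
    exact hb trivial
  · obtain ⟨f, hf⟩ := (mk_le_aleph0_iff.1 (lt_aleph_one_iff.1 c)).exists_injective_nat
    exact sp f fun s t h e => h.ne (hf e)

end Pool.Agent.H.MP_31a5ad_lc
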